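import Pool.Agent.H20.LIM.Targets

/-! AVL: averages of bounded functions are Lipschitz. -/

set_option autoImplicit false

open Complex MeasureTheory Set Filter Topology Metric

namespace Pool.Agent.H90.LIM

open Pool.Agent.H20.LIM

theorem vol_ball_real (z : ℂ) {r : ℝ} (hr : 0 ≤ r) : volume.real (ball z r) = Real.pi * r ^ 2 := by
  rw [Measure.real, Complex.volume_ball, ENNReal.toReal_mul, ENNReal.toReal_pow,
    ENNReal.toReal_ofReal hr]
  simp [mul_comm]

/-- the part of a disc outside of a translated disc is small -/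
theorem vol_diff_le (z z' : ℂ) {r : ℝ} (hr : 0 < r) :
    volume.real (ball z r \ ball z' r) ≤ 2 * Real.pi * r * ‖z - z'‖ := by
  have hπ := Real.pi_pos
  have hfin : volume (ball z r) ≠ ⊤ := measure_ball_lt_top.ne
  rcases le_or_gt r ‖z - z'‖ with h | h
  · have h1 : volume.real (ball z r \ ball z' r) ≤ volume.real (ball z r) :=
      measureReal_mono sdiff_subset hfin
    rw [vol_ball_real z hr.le] at h1
    nlinarith [mul_pos hπ hr, mul_le_mul_of_nonneg_left h (mul_pos hπ hr).le]
  · have hsub : ball z r \ ball z' r ⊆ ball z r \ ball z (r - ‖z - z'‖) := by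
      intro w hw
      refine ⟨hw.1, fun hw2 => hw.2 ?_⟩
      rw [mem_ball] at hw2 ⊢
      have := dist_triangle w z z'
      rw [dist_eq_norm z z'] at this
      linarith
    have h1 : volume.real (ball z r \ ball z' r) ≤
        volume.real (ball z r \ ball z (r - ‖z - z'‖)) :=
      measureReal_mono hsub ((measure_mono sdiff_subset).trans_lt measure_ball_lt_top).ne
    have h2 : volume.real (ball z r \ ball z (r - ‖z - z'‖)) =
        volume.real (ball z r) - volume.real (ball z (r - ‖z - z'‖)) :=
      measureReal_sdiff (ball_subset_ball (by linarith [norm_nonneg (z - z')]))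
        measurableSet_ball measure_ball_lt_top.ne
    rw [h2, vol_ball_real z hr.le, vol_ball_real z (by linarith)] at h1
    nlinarith [mul_nonneg hπ.le (sq_nonneg ‖z - z'‖), norm_nonneg (z - z')]

theorem pf_avl : T_AVL := by
  intro g M r hg hM hr z z'
  have hπ := Real.pi_pos
  have hint : ∀ s : Set ℂ, volume s ≠ ⊤ → IntegrableOn g s := by
    intro s hs
    have : IsFiniteMeasure (volume.restrict s) := ⟨by
      rw [Measure.restrict_apply_univ]
      exact hs.lt_top⟩
    exact Integrable.of_bound hg.aestronglyMeasurable M (ae_of_all _ fun w => hM w)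
  have hb : ∀ c : ℂ, volume (ball c r) ≠ ⊤ := fun c => measure_ball_lt_top.ne
  have hdiff : ∀ c c' : ℂ, |∫ w in ball c r \ ball c' r, g w| ≤
      M * (2 * Real.pi * r * ‖c - c'‖) := by
    intro c c'
    have hM0 : 0 ≤ M := (abs_nonneg (g 0)).trans (hM 0)
    have h1 : ‖∫ w in ball c r \ ball c' r, g w‖ ≤ M * volume.real (ball c r \ ball c' r) :=
      norm_setIntegral_le_of_norm_le_const
        ((measure_mono sdiff_subset).trans_lt measure_ball_lt_top) fun w _ => hM w
    exact h1.trans (mul_le_mul_of_nonneg_left (vol_diff_le c c' hr) hM0)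
  have hsplit : ∀ c c' : ℂ, ∫ w in ball c r, g w =
      (∫ w in ball c r ∩ ball c' r, g w) + ∫ w in ball c r \ ball c' r, g w := fun c c' =>
    (integral_inter_add_sdiff measurableSet_ball (hint _ (hb c))).symm
  have hav : ∀ c : ℂ, av r g c = (Real.pi * r ^ 2)⁻¹ * ∫ w in ball c r, g w := by
    intro c
    unfold av
    rw [setAverage_eq, vol_ball_real c hr.le, smul_eq_mul]
  rw [hav, hav, ← mul_sub, abs_mul, abs_of_pos (by positivity : 0 < (Real.pi * r ^ 2)⁻¹)]
  have h3 : |(∫ w in ball z r, g w) - ∫ w in ball z' r, g w| ≤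
      M * (4 * Real.pi * r * ‖z - z'‖) := by
    rw [hsplit z z', hsplit z' z, inter_comm (ball z' r)]
    have h4 := hdiff z z'
    have h5 := hdiff z' z
    rw [norm_sub_rev z' z] at h5
    rw [abs_le] at *
    constructor <;> nlinarith
  calc (Real.pi * r ^ 2)⁻¹ * |(∫ w in ball z r, g w) - ∫ w in ball z' r, g w|
      ≤ (Real.pi * r ^ 2)⁻¹ * (M * (4 * Real.pi * r * ‖z - z'‖)) :=
        mul_le_mul_of_nonneg_left h3 (by positivity)
    _ = 4 * M / r * ‖z - z'‖ := by field_simp

end Pool.Agent.H90.LIM
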