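import Pool.Agent.H20.LIM.Targets

/-! LGB: the size of the logarithm in `L^1` of a disc, uniformly in the centre. -/

set_option autoImplicit false

open Complex MeasureTheory Set Filter Topology Metric

namespace Pool.Agent.H90.LIM

open Pool.Agent.H20.LIM

/-- a bounded function on a disc -/
theorem L1_le_of_bound {R b : ℝ} (hR : 0 ≤ R) (hb : 0 ≤ b) (f : ℂ → ℝ)
    (h : ∀ z ∈ closedBall (0 : ℂ) R, |f z| ≤ b) : L1 R f ≤ ENNReal.ofReal (b * (Real.pi * R ^ 2)) := by
  have h1 : L1 R f ≤ ∫⁻ _ in closedBall (0 : ℂ) R, ENNReal.ofReal b := by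
    refine setLIntegral_mono' measurableSet_closedBall fun z hz => ?_
    rw [Real.enorm_eq_ofReal_abs]
    exact ENNReal.ofReal_le_ofReal (h z hz)
  refine h1.trans_eq ?_
  rw [setLIntegral_const, Complex.volume_closedBall, ENNReal.ofReal_mul hb,
    ENNReal.ofReal_mul Real.pi_pos.le, ENNReal.ofReal_pow hR, mul_comm (ENNReal.ofReal Real.pi)]
  congr 2
  rw [← NNReal.coe_real_pi, ENNReal.ofReal_coe_nnreal]

theorem pf_lgb (hLI : T_LI) : T_LGB := by
  intro R hR
  -- the integral of the logarithm over a large disc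
  have hloc := hLI (fun z => z) differentiable_id ⟨1, one_ne_zero⟩
  have hint : IntegrableOn (fun z : ℂ => Real.log ‖z‖) (closedBall (0 : ℂ) (3 * R + 2)) :=
    hloc.integrableOn_isCompact (isCompact_closedBall _ _)
  obtain ⟨I, hI0, hI⟩ : ∃ I : ℝ, 0 ≤ I ∧
      ∫⁻ w in closedBall (0 : ℂ) (3 * R + 2), ‖Real.log ‖w‖‖ₑ ≤ ENNReal.ofReal I := by
    refine ⟨(∫⁻ w in closedBall (0 : ℂ) (3 * R + 2), ‖Real.log ‖w‖‖ₑ).toReal,
      ENNReal.toReal_nonneg, ?_⟩
    rw [ENNReal.ofReal_toReal hint.2.ne]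
  have hl4 : 0 ≤ Real.log 4 := Real.log_nonneg (by norm_num)
  have hl3 : 0 ≤ Real.log (2 * R + 3) := Real.log_nonneg (by linarith)
  have hπR : 0 ≤ Real.pi * R ^ 2 := by positivity
  refine ⟨Real.log 4 * (Real.pi * R ^ 2) + (Real.log (2 * R + 3) * (Real.pi * R ^ 2) + I), ?_⟩
  intro c
  rcases le_or_gt (2 * R + 2) ‖c‖ with hc | hc
  · have h1 := L1_le_of_bound hR.le hl4 (fun z => Real.log ‖z - c‖ - Real.log (1 + ‖c‖)) (by
      intro z hz
      rw [mem_closedBall, dist_zero_right] at hz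
      have h2 : ‖c‖ / 4 ≤ ‖z - c‖ ∧ (1 + ‖c‖) / 4 ≤ ‖z - c‖ := by
        have := norm_sub_norm_le c z
        rw [norm_sub_rev] at this
        constructor <;> linarith
      have h3 : ‖z - c‖ ≤ 4 * (1 + ‖c‖) := by
        have := norm_sub_le z c
        linarith [norm_nonneg c]
      have hp : 0 < 1 + ‖c‖ := by positivity
      have hp2 : 0 < ‖z - c‖ := lt_of_lt_of_le (by positivity) h2.2
      have h4 : Real.log (1 + ‖c‖) - Real.log 4 ≤ Real.log ‖z - c‖ := by
        rw [← Real.log_div hp.ne' (by norm_num)]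
        exact Real.log_le_log (by positivity) h2.2
      have h5 : Real.log ‖z - c‖ ≤ Real.log 4 + Real.log (1 + ‖c‖) := by
        rw [← Real.log_mul (by norm_num) hp.ne']
        exact Real.log_le_log hp2 h3
      show |Real.log ‖z - c‖ - Real.log (1 + ‖c‖)| ≤ Real.log 4
      rw [abs_le]
      constructor <;> linarith)
    refine h1.trans (ENNReal.ofReal_le_ofReal ?_)
    have : 0 ≤ Real.log (2 * R + 3) * (Real.pi * R ^ 2) := mul_nonneg hl3 hπR
    linarith
  · have hsub : L1 R (fun z => Real.log ‖z - c‖ - Real.log (1 + ‖c‖)) ≤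
        L1 R (fun _ => Real.log (1 + ‖c‖)) + L1 R (fun z => Real.log ‖z - c‖) := by
      unfold L1
      rw [← lintegral_add_left measurable_const]
      refine lintegral_mono fun z => ?_
      show ‖Real.log ‖z - c‖ - Real.log (1 + ‖c‖)‖ₑ ≤ ‖Real.log (1 + ‖c‖)‖ₑ + ‖Real.log ‖z - c‖‖ₑ
      exact (enorm_sub_le (a := Real.log ‖z - c‖) (b := Real.log (1 + ‖c‖))).trans_eq
        (add_comm _ _)
    have h1 := L1_le_of_bound hR.le hl3 (fun _ => Real.log (1 + ‖c‖)) (by
      intro z _
      have h2 : 0 ≤ Real.log (1 + ‖c‖) := Real.log_nonneg (by linarith [norm_nonneg c])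
      rw [abs_of_nonneg h2]
      exact Real.log_le_log (by positivity) (by linarith))
    have h2 : L1 R (fun z => Real.log ‖z - c‖) ≤ ENNReal.ofReal I := by
      refine le_trans ?_ hI
      have h3 : L1 R (fun z => Real.log ‖z - c‖) =
          ∫⁻ w in (fun w : ℂ => w + c) ⁻¹' closedBall (0 : ℂ) R, ‖Real.log ‖w‖‖ₑ := by
        have h4 := (measurePreserving_add_right (volume : Measure ℂ) c).setLIntegral_comp_preimage_emb
          (MeasurableEquiv.addRight c).measurableEmbedding (fun z => ‖Real.log ‖z - c‖‖ₑ)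
          (closedBall (0 : ℂ) R)
        simp only [add_sub_cancel_right] at h4
        exact h4.symm
      rw [h3]
      refine lintegral_mono_set fun w hw => ?_
      rw [mem_preimage, mem_closedBall, dist_zero_right] at hw
      rw [mem_closedBall, dist_zero_right]
      have h5 : ‖w‖ ≤ ‖w + c‖ + ‖c‖ := by
        have := norm_sub_le (w + c) c
        rwa [add_sub_cancel_right] at this
      linarith
    refine hsub.trans ((add_le_add h1 h2).trans ?_)
    rw [← ENNReal.ofReal_add (mul_nonneg hl3 hπR) hI0]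
    refine ENNReal.ofReal_le_ofReal ?_
    have : 0 ≤ Real.log 4 * (Real.pi * R ^ 2) := mul_nonneg hl4 hπR
    linarith

end Pool.Agent.H90.LIM
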