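import Pool.Agent.H20.LIM.Targets

/-! PLB: a Phragmen-Lindelof principle in a strip. -/

set_option autoImplicit false

open Complex MeasureTheory Set Filter Topology Metric

namespace Pool.Agent.H90.LIM

open Pool.Agent.H20.LIM

/-! ### The comparison function -/

/-- the harmonic function `cos x cosh y` -/
noncomputable def hc (z : ℂ) : ℝ := (Complex.cos z).re

theorem hc_eq (z : ℂ) : hc z = Real.cos z.re * Real.cosh z.im := by
  have h : Complex.cos z = ((Real.cos z.re * Real.cosh z.im : ℝ) : ℂ) -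
      ((Real.sin z.re * Real.sinh z.im : ℝ) : ℂ) * I := by
    rw [Complex.cos_eq]
    push_cast
    ring
  unfold hc
  rw [h, sub_re, ofReal_re, re_ofReal_mul, I_re, mul_zero, sub_zero]

theorem hc_cont : Continuous hc := continuous_re.comp Complex.continuous_cos

theorem hc_circle (c : ℂ) (ρ : ℝ) : Real.circleAverage hc c ρ = hc c := by
  have h1 : CircleIntegrable Complex.cos c ρ :=
    Complex.continuous_cos.continuousOn.circleIntegrable'
  have h2 := Complex.reCLM.circleAverage_comp_comm h1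
  have h3 : Real.circleAverage Complex.cos c ρ = Complex.cos c :=
    circleAverage_of_differentiable_on_off_countable countable_empty
      Complex.continuous_cos.continuousOn fun z _ => Complex.differentiable_cos z
  rw [h3] at h2
  exact h2

theorem hc_int (c : ℂ) (r : ℝ) : IntegrableOn hc (ball c r) :=
  (hc_cont.continuousOn.integrableOn_compact (isCompact_closedBall c r)).mono_set
    ball_subset_closedBall

theorem av_hc (hPOL : T_POL) {r : ℝ} (hr : 0 < r) (c : ℂ) : av r hc c = hc c := by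
  rw [hPOL hc c r hr (hc_int c r)]
  have h1 : ∀ ρ : ℝ, ρ * Real.circleAverage hc c ρ = ρ * hc c := fun ρ => by rw [hc_circle]
  simp only [h1]
  rw [intervalIntegral.integral_mul_const, integral_id]
  field_simp
  ring

theorem ball_vol_pos (c : ℂ) {r : ℝ} (hr : 0 < r) : 0 < volume.real (ball c r) :=
  ENNReal.toReal_pos (measure_ball_pos volume c hr).ne' measure_ball_lt_top.ne

theorem av_sub {f g : ℂ → ℝ} {c : ℂ} {r : ℝ} (hf : IntegrableOn f (ball c r))
    (hg : IntegrableOn g (ball c r)) : av r (fun z => f z - g z) c = av r f c - av r g c := by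
  unfold av
  rw [setAverage_eq, setAverage_eq, setAverage_eq, integral_sub hf hg, smul_sub]

theorem av_const {k : ℝ} {c : ℂ} {r : ℝ} (hr : 0 < r) : av r (fun _ => k) c = k := by
  unfold av
  rw [setAverage_eq, setIntegral_const, smul_smul, inv_mul_cancel₀ (ball_vol_pos c hr).ne',
    one_smul]

theorem av_comp (hPOL : T_POL) {k η r : ℝ} (hr : 0 < r) (c : ℂ) :
    av r (fun z => k + η * hc z) c = k + η * hc c := by
  have h1 : IntegrableOn (fun _ : ℂ => k) (ball c r) :=
    integrableOn_const measure_ball_lt_top.ne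
  have h2 : IntegrableOn (fun z => η * hc z) (ball c r) := (hc_int c r).const_mul η
  have h3 := av_const (k := k) (c := c) hr
  have h4 := av_hc hPOL hr c
  unfold av at h3 h4 ⊢
  rw [setAverage_eq] at h3 h4 ⊢
  rw [integral_add h1 h2, integral_const_mul, smul_add, h3]
  rw [smul_eq_mul] at h4 ⊢
  rw [mul_left_comm, h4]

/-! ### The maximum principle with a compact set -/

theorem core (hAVF : T_AVF) (hSMP : T_SMP) {w : ℂ → ℝ} (hloc : LocallyIntegrable w volume)
    (hsub : ∀ r : ℝ, 0 < r → ∀ᵐ z : ℂ, w z ≤ av r w z) {G K U : Set ℂ} (hG : IsOpen G)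
    (hGc : IsPreconnected G) (hK : IsCompact K) {r : ℝ} (hr : 0 < r)
    (hKG : ∀ z ∈ K, ball z r ⊆ G) {B : ℝ} (hB : ∀ᵐ z : ℂ, z ∈ G → w z ≤ B)
    (hneg : ∀ᵐ z : ℂ, z ∈ G → z ∉ K → w z < 0) (hU : IsOpen U) (hUne : U.Nonempty)
    (hUG : U ⊆ G) (hUK : ∀ z ∈ U, z ∉ K) : ∀ᵐ z : ℂ, z ∈ G → w z ≤ 0 := by
  by_contra h0
  obtain ⟨S, hS⟩ : ∃ S : Set ℝ, S = {c : ℝ | ∀ᵐ z : ℂ, z ∈ G → w z ≤ c} := ⟨_, rfl⟩
  have memS : ∀ c, c ∈ S ↔ ∀ᵐ z : ℂ, z ∈ G → w z ≤ c := fun c => by rw [hS]; rfl
  have hup : ∀ c d, c ∈ S → c ≤ d → d ∈ S := by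
    intro c d hc hcd
    rw [memS] at hc ⊢
    filter_upwards [hc] with z h1 h2
    exact (h1 h2).trans hcd
  have hposS : ∀ c ∈ S, 0 < c := by
    intro c hc
    by_contra h1
    push Not at h1
    exact h0 ((memS 0).1 (hup c 0 hc h1))
  have hne : S.Nonempty := ⟨B, (memS B).2 hB⟩
  have hbdd : BddBelow S := ⟨0, fun c hc => (hposS c hc).le⟩
  obtain ⟨s, hs⟩ : ∃ s : ℝ, s = sInf S := ⟨_, rfl⟩
  have hsS : s ∈ S := by
    rw [memS]
    have h1 : ∀ n : ℕ, ∀ᵐ z : ℂ, z ∈ G → w z ≤ s + 1 / ((n : ℝ) + 1) := by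
      intro n
      have h2 : (0 : ℝ) < 1 / ((n : ℝ) + 1) := by positivity
      obtain ⟨c, hc, hc2⟩ := exists_lt_of_csInf_lt hne (show sInf S < s + 1 / ((n : ℝ) + 1) by
        rw [← hs]
        linarith)
      exact (memS _).1 (hup c _ hc hc2.le)
    filter_upwards [ae_all_iff.2 h1] with z h2 h3
    refine le_of_forall_pos_lt_add fun ε hε => ?_
    obtain ⟨n, hn⟩ := exists_nat_one_div_lt hε
    exact (h2 n h3).trans_lt (by linarith)
  have hs0 : 0 < s := hposS s hsS
  have hlow : ∀ s' < s, s' ∉ S := by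
    intro s' hs' h1
    have h2 := csInf_le hbdd h1
    rw [← hs] at h2
    linarith
  -- a point where the supremum is attained
  obtain ⟨z0, hz0, hz0P⟩ : ∃ z0 ∈ K, ∀ t ∈ 𝓝 z0, ∀ s' < s, ¬ ∀ᵐ z : ℂ, z ∈ t → w z ≤ s' := by
    by_contra h1
    push Not at h1
    have h2 : ∃ s' < s, ∀ᵐ z : ℂ, z ∈ K → w z ≤ s' := by
      refine hK.induction_on (p := fun t => ∃ s' < s, ∀ᵐ z : ℂ, z ∈ t → w z ≤ s') ?_ ?_ ?_ ?_
      · exact ⟨s - 1, by linarith, ae_of_all _ fun z hz => absurd hz (notMem_empty z)⟩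
      · rintro t t' htt' ⟨s', hs', h3⟩
        refine ⟨s', hs', ?_⟩
        filter_upwards [h3] with z h4 h5
        exact h4 (htt' h5)
      · rintro t t' ⟨s1, hs1, h3⟩ ⟨s2, hs2, h4⟩
        refine ⟨max s1 s2, max_lt hs1 hs2, ?_⟩
        filter_upwards [h3, h4] with z h5 h6 h7
        rcases h7 with h7 | h7
        · exact (h5 h7).trans (le_max_left _ _)
        · exact (h6 h7).trans (le_max_right _ _)
      · intro x hx
        obtain ⟨t, ht, s', hs', h3⟩ := h1 x hx
        exact ⟨t, mem_nhdsWithin_of_mem_nhds ht, s', hs', h3⟩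
    obtain ⟨s', hs', h3⟩ := h2
    refine hlow (max s' 0) (max_lt hs' hs0) ((memS _).2 ?_)
    filter_upwards [h3, hneg] with z h4 h5 h6
    by_cases h7 : z ∈ K
    · exact (h4 h7).trans (le_max_left _ _)
    · exact (h5 h6 h7).le.trans (le_max_right _ _)
  have hball : ball z0 r ⊆ G := hKG z0 hz0
  have hcont : Continuous (av r w) := (hAVF w hloc r r hr hr).1
  have hav : s ≤ av r w z0 := by
    by_contra h1
    push Not at h1
    obtain ⟨s', h2, h3⟩ := exists_between h1
    refine hz0P {z | av r w z < s'} ((isOpen_lt hcont continuous_const).mem_nhds h2) s' h3 ?_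
    filter_upwards [hsub r hr] with z h4 h5
    exact h4.trans (le_of_lt h5)
  have hint : IntegrableOn w (ball z0 r) :=
    (hloc.integrableOn_isCompact (isCompact_closedBall z0 r)).mono_set ball_subset_closedBall
  have hcint : Integrable (fun _ : ℂ => s) (volume.restrict (ball z0 r)) :=
    integrableOn_const measure_ball_lt_top.ne
  have hle : ∀ᵐ z ∂(volume.restrict (ball z0 r)), 0 ≤ s - w z := by
    rw [ae_restrict_iff' measurableSet_ball]
    filter_upwards [(memS s).1 hsS] with z h1 h2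
    linarith [h1 (hball h2)]
  have hz : ∫ z in ball z0 r, (s - w z) = 0 := by
    refine le_antisymm ?_ (integral_nonneg_of_ae hle)
    rw [integral_sub hcint hint, setIntegral_const, smul_eq_mul]
    have h1 : ∫ z in ball z0 r, w z = volume.real (ball z0 r) * av r w z0 := by
      unfold av
      rw [setAverage_eq, smul_eq_mul, ← mul_assoc, mul_inv_cancel₀ (ball_vol_pos z0 hr).ne',
        one_mul]
    rw [h1]
    nlinarith [ball_vol_pos z0 hr]
  have heq : ∀ᵐ z : ℂ, z ∈ ball z0 r → w z - s = 0 := by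
    rw [← ae_restrict_iff' measurableSet_ball]
    have h1 := (integral_eq_zero_iff_of_nonneg_ae hle (hcint.sub hint)).1 hz
    filter_upwards [h1] with z h2
    have h3 : s - w z = 0 := h2
    linarith
  have hfin := hSMP (fun z => w z - s) G (hloc.sub (locallyIntegrable_const s)) (by
    intro ρ hρ
    filter_upwards [hsub ρ hρ] with z h1
    have h2 : av ρ (fun z => w z - s) z = av ρ w z - s := by
      rw [av_sub ((hloc.integrableOn_isCompact (isCompact_closedBall z ρ)).mono_set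
        ball_subset_closedBall) (integrableOn_const measure_ball_lt_top.ne), av_const hρ]
    rw [h2]
    linarith) hG hGc (by
    filter_upwards [(memS s).1 hsS] with z h1 h2
    linarith [h1 h2]) ⟨z0, r, hr, hball, heq⟩
  have h1 : ∀ᵐ z : ℂ, z ∉ U := by
    filter_upwards [hfin, hneg] with z h2 h3 h4
    have h5 := h2 (hUG h4)
    have h6 := h3 (hUG h4) (hUK z h4)
    linarith
  have h2 := hU.measure_pos volume hUne
  have h3 : volume U = 0 := by
    rw [ae_iff] at h1
    simpa using h1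
  exact h2.ne' h3

theorem lt_cosh (y : ℝ) : |y| < Real.cosh y := by
  have h1 : |y| ≤ Real.sinh |y| := Real.self_le_sinh_iff.2 (abs_nonneg y)
  have h2 := Real.sinh_lt_cosh |y|
  rw [Real.cosh_abs] at h2
  linarith

theorem cos_one_le {x : ℝ} (hx : |x| ≤ 1) : Real.cos 1 ≤ Real.cos x := by
  rw [← Real.cos_abs x]
  exact Real.cos_le_cos_of_nonneg_of_le_pi (abs_nonneg x) (by linarith [Real.pi_gt_three]) hx

theorem step (hAVF : T_AVF) (hSMP : T_SMP) (hPOL : T_POL) {v : ℂ → ℝ} {a M : ℝ}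
    (hloc : LocallyIntegrable v volume) (hsub : ∀ r : ℝ, 0 < r → ∀ᵐ z : ℂ, v z ≤ av r v z)
    (hM : ∀ᵐ z : ℂ, |z.re| ≤ 1 → v z ≤ M)
    (hout : ∀ ε : ℝ, 0 < ε → ∀ᵐ z : ℂ, 1 / 2 < |z.re| → |z.re| < 1 / 2 + ε → v z ≤ a + ε)
    {δ Y : ℝ} (hδ : 0 < δ) :
    ∀ᵐ z : ℂ, |z.re| ≤ 1 / 2 → |z.im| ≤ Y → v z ≤ a + 2 * δ := by
  have hcY : 0 < Real.cosh Y := Real.cosh_pos Y
  obtain ⟨η, hη, hηY⟩ : ∃ η : ℝ, 0 < η ∧ η * Real.cosh Y = δ / 2 :=
    ⟨δ / 2 / Real.cosh Y, by positivity, by field_simp⟩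
  have hc1 : 0 < Real.cos 1 := Real.cos_one_pos
  obtain ⟨e, he, heδ, he2⟩ : ∃ e : ℝ, 0 < e ∧ e ≤ δ ∧ e ≤ 1 / 2 :=
    ⟨min δ (1 / 2), lt_min hδ (by norm_num), min_le_left _ _, min_le_right _ _⟩
  obtain ⟨Y', hY'⟩ : ∃ Y' : ℝ, η * Real.cos 1 * Y' = |M| + |a| := by
    refine ⟨(|M| + |a|) / (η * Real.cos 1), ?_⟩
    field_simp
  have hpos : ∀ z : ℂ, |z.re| ≤ 1 → Real.cos 1 * |z.im| ≤ hc z ∧ 0 < hc z := by
    intro z hz
    rw [hc_eq]
    have h1 := cos_one_le hz
    have h2 := lt_cosh z.im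
    exact ⟨mul_le_mul h1 h2.le (abs_nonneg _) (hc1.le.trans h1),
      mul_pos (hc1.trans_le h1) (Real.cosh_pos _)⟩
  have hwloc : LocallyIntegrable (fun z => v z - ((a + δ) + η * hc z)) volume :=
    hloc.sub ((continuous_const.add (continuous_const.mul hc_cont)).locallyIntegrable)
  have hwsub : ∀ r : ℝ, 0 < r → ∀ᵐ z : ℂ, v z - ((a + δ) + η * hc z) ≤
      av r (fun z => v z - ((a + δ) + η * hc z)) z := by
    intro r hr
    filter_upwards [hsub r hr] with z h1
    have hcc : Continuous (fun z => (a + δ) + η * hc z) :=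
      continuous_const.add (continuous_const.mul hc_cont)
    have hi : IntegrableOn (fun z => (a + δ) + η * hc z) (ball z r) :=
      (hcc.continuousOn.integrableOn_compact (isCompact_closedBall z r)).mono_set
        ball_subset_closedBall
    rw [av_sub ((hloc.integrableOn_isCompact (isCompact_closedBall z r)).mono_set
      ball_subset_closedBall) hi, av_comp hPOL hr z]
    linarith
  have hG : IsOpen {z : ℂ | |z.re| < 1 / 2 + e} :=
    isOpen_lt (continuous_abs.comp continuous_re) continuous_const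
  have hGc : IsPreconnected {z : ℂ | |z.re| < 1 / 2 + e} := by
    have h1 : {z : ℂ | |z.re| < 1 / 2 + e} = Complex.reLm ⁻¹' Ioo (-(1 / 2 + e)) (1 / 2 + e) := by
      ext z
      rw [mem_preimage, mem_Ioo, mem_ofPred_eq, abs_lt]
      rfl
    rw [h1]
    exact ((convex_Ioo _ _).linear_preimage Complex.reLm).isPreconnected
  have hKc : IsCompact (Icc (-(1 / 2) : ℝ) (1 / 2) ×ℂ Icc (-Y') Y') :=
    isCompact_Icc.reProdIm isCompact_Icc
  have memK : ∀ z : ℂ, z ∈ (Icc (-(1 / 2) : ℝ) (1 / 2) ×ℂ Icc (-Y') Y') ↔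
      |z.re| ≤ 1 / 2 ∧ |z.im| ≤ Y' := by
    intro z
    rw [mem_reProdIm, mem_Icc, mem_Icc, abs_le, abs_le]
  have hfin := core hAVF hSMP hwloc hwsub hG hGc hKc (r := e / 2) (by positivity) (by
      intro z hz x hx
      have h1 := ((memK z).1 hz).1
      rw [mem_ball, dist_eq_norm] at hx
      have h2 : |(x - z).re| ≤ ‖x - z‖ := abs_re_le_norm _
      rw [sub_re] at h2
      have h3 : |x.re| ≤ |z.re| + |x.re - z.re| := by
        have := abs_sub_abs_le_abs_sub x.re z.re
        linarith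
      show |x.re| < 1 / 2 + e
      linarith) (B := |M| + |a|) (by
      filter_upwards [hM] with z h1 h2
      have h3 : |z.re| < 1 / 2 + e := h2
      have h4 : |z.re| ≤ 1 := by linarith
      have h5 := h1 h4
      have h6 := (hpos z h4).2
      have h7 := le_abs_self M
      have h8 := neg_abs_le a
      have h9 := mul_pos hη h6
      linarith) (by
      filter_upwards [hM, hout e he] with z h1 h2 h3 h4
      have h5 : |z.re| < 1 / 2 + e := h3
      have h6 : |z.re| ≤ 1 := by linarith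
      obtain ⟨h7, h8⟩ := hpos z h6
      have h9 := mul_pos hη h8
      rcases le_or_gt |z.re| (1 / 2) with h10 | h10
      · have h11 : Y' < |z.im| := by
          by_contra h12
          push Not at h12
          exact h4 ((memK z).2 ⟨h10, h12⟩)
        have h12 := h1 h6
        have h13 : η * Real.cos 1 * Y' < η * Real.cos 1 * |z.im| :=
          mul_lt_mul_of_pos_left h11 (mul_pos hη hc1)
        have h14 : η * (Real.cos 1 * |z.im|) ≤ η * hc z := mul_le_mul_of_nonneg_left h7 hη.le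
        have h15 := le_abs_self M
        have h16 := neg_abs_le a
        nlinarith
      · have h11 := h2 h10 h5
        linarith)
    (U := {z : ℂ | 1 / 2 < z.re ∧ z.re < 1 / 2 + e})
    ((isOpen_lt continuous_const continuous_re).inter (isOpen_lt continuous_re continuous_const))
    ⟨((1 / 2 + e / 2 : ℝ) : ℂ), by
      show (1 : ℝ) / 2 < (((1 / 2 + e / 2 : ℝ) : ℂ)).re ∧ (((1 / 2 + e / 2 : ℝ) : ℂ)).re < 1 / 2 + e
      rw [ofReal_re]
      constructor <;> linarith⟩ (by
      rintro z ⟨h1, h2⟩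
      show |z.re| < 1 / 2 + e
      rw [abs_of_pos (by linarith)]
      exact h2) (by
      rintro z ⟨h1, h2⟩ h3
      have h4 := ((memK z).1 h3).1
      have h5 := le_abs_self z.re
      linarith)
  filter_upwards [hfin] with z h1 h2 h3
  have h4 := h1 (show |z.re| < 1 / 2 + e by linarith)
  have h5 : hc z ≤ Real.cosh Y := by
    rw [hc_eq]
    have h6 : Real.cosh z.im ≤ Real.cosh Y :=
      Real.cosh_le_cosh.2 (h3.trans (le_abs_self Y))
    have h7 := Real.cos_le_one z.re
    have h8 := Real.cosh_pos z.im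
    nlinarith
  have h6 : η * hc z ≤ η * Real.cosh Y := mul_le_mul_of_nonneg_left h5 hη.le
  linarith

theorem pf_plb (hAVF : T_AVF) (hSMP : T_SMP) (hPOL : T_POL) : T_PLB := by
  intro v a M hloc hsub hM hout
  have h1 : ∀ n N : ℕ, ∀ᵐ z : ℂ, |z.re| ≤ 1 / 2 → |z.im| ≤ N →
      v z ≤ a + 2 * (1 / ((n : ℝ) + 1)) := fun n N =>
    step hAVF hSMP hPOL hloc hsub hM hout (by positivity)
  have h2 : ∀ᵐ z : ℂ, ∀ n N : ℕ, |z.re| ≤ 1 / 2 → |z.im| ≤ N →
      v z ≤ a + 2 * (1 / ((n : ℝ) + 1)) := ae_all_iff.2 fun n => ae_all_iff.2 fun N => h1 n N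
  filter_upwards [h2] with z h3 h4
  obtain ⟨N, hN⟩ := exists_nat_ge |z.im|
  refine le_of_forall_pos_lt_add fun ε hε => ?_
  obtain ⟨n, hn⟩ := exists_nat_one_div_lt (half_pos hε)
  exact (h3 n N h4 hN).trans_lt (by linarith)

end Pool.Agent.H90.LIM
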