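import Pool.Agent.H20.LIM.Targets

/-! ULB: uniform local bounds for profiles. -/

set_option autoImplicit false

open Complex MeasureTheory Set Filter Topology Metric

namespace Pool.Agent.H90.LIM

open Pool.Agent.H20.LIM

/-- a continuous function which is nonnegative almost everywhere on an open set is nonnegative
there -/
theorem nonneg_of_ae {g : ℂ → ℝ} (hg : Continuous g) {G : Set ℂ} (hG : IsOpen G)
    (h : ∀ᵐ z : ℂ, z ∈ G → 0 ≤ g z) : ∀ z ∈ G, 0 ≤ g z := by
  intro z hz
  by_contra hc
  push Not at hc
  have ho : IsOpen (G ∩ {w | g w < 0}) := hG.inter (isOpen_lt hg continuous_const)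
  have hpos := ho.measure_pos volume ⟨z, hz, hc⟩
  have h0 : volume (G ∩ {w | g w < 0}) = 0 := by
    refine measure_mono_null ?_ (ae_iff.1 h)
    rintro w ⟨hw, hw2⟩ hw3
    exact absurd (hw3 hw) (not_le.2 hw2)
  exact absurd h0 hpos.ne'

theorem vol_ball4 (z : ℂ) : volume.real (ball z 4) = 16 * Real.pi := by
  rw [Measure.real, Complex.volume_ball, ENNReal.toReal_mul, ENNReal.toReal_pow,
    ENNReal.toReal_ofReal (by norm_num)]
  simp
  ring

theorem pf_ulb (hAVF : T_AVF) : T_ULB := by
  intro q v hq0 hq1 hv
  refine ⟨48 * Real.pi, fun z => ?_⟩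
  rcases le_or_gt |z.re| 2 with hz | hz
  · obtain ⟨z1, hz1, hz2⟩ : ∃ z1 : ℂ, z1.re = 1 ∧ z1.im = z.im := ⟨⟨1, z.im⟩, rfl, rfl⟩
    have hloc : IntegrableOn v (ball z1 4) :=
      (hv.loc.integrableOn_isCompact (isCompact_closedBall z1 4)).mono_set ball_subset_closedBall
    have hvol : 0 < volume.real (ball z1 4) := by
      rw [vol_ball4]
      positivity
    have hav : 0 ≤ av 4 v z1 := by
      refine nonneg_of_ae (hAVF v hv.loc 4 4 (by norm_num) (by norm_num)).1
        (G := {w : ℂ | 1 / 2 < w.re}) (isOpen_lt continuous_const continuous_re) ?_ z1 ?_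
      · filter_upwards [hv.sub 4 (by norm_num), hv.out] with w h1 h2 h3
        have h4 : (1 : ℝ) / 2 < w.re := h3
        have h5 : |w.re| = w.re := abs_of_pos (by linarith)
        have h6 := h2 (by rw [h5]; exact h4)
        rw [h6] at h1
        exact (mul_nonneg (by positivity) (abs_nonneg _)).trans h1
      · show (1 : ℝ) / 2 < z1.re
        rw [hz1]
        norm_num
    have hint : 0 ≤ ∫ w in ball z1 4, v w := by
      unfold av at hav
      rw [setAverage_eq, smul_eq_mul] at hav
      by_contra h
      push Not at h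
      have := mul_neg_of_pos_of_neg (inv_pos.2 hvol) h
      linarith
    have hsub : ball z 1 ⊆ ball z1 4 := by
      intro w hw
      rw [mem_ball] at hw ⊢
      have h1 : dist z z1 ≤ 3 := by
        rw [dist_eq_norm]
        have h2 : z - z1 = ((z.re - 1 : ℝ) : ℂ) := by
          apply Complex.ext
          · simp [hz1]
          · simp [hz2]
        rw [h2, Complex.norm_real, Real.norm_eq_abs]
        rw [abs_le] at hz ⊢
        constructor <;> linarith [hz.1, hz.2]
      have := dist_triangle w z z1
      linarith
    have hfin : volume (ball z1 4) ≠ ⊤ := measure_ball_lt_top.ne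
    have hI : IntegrableOn (fun w => 3 - v w) (ball z1 4) := by
      have h3 : IntegrableOn (fun _ : ℂ => (3 : ℝ)) (ball z1 4) := integrableOn_const hfin
      exact h3.sub hloc
    have hptw : ∀ᵐ w ∂(volume.restrict (ball z1 4)), abs (v w - q / 2 * |w.re|) ≤ 3 - v w := by
      rw [ae_restrict_iff' measurableSet_ball]
      filter_upwards [hv.out, hv.le] with w h1 h2 h3
      have h5 : |w.re| ≤ 5 := by
        have h6 : |(w - z1).re| ≤ ‖w - z1‖ := abs_re_le_norm _
        rw [mem_ball, dist_eq_norm] at h3
        rw [sub_re, hz1] at h6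
        have h7 := h6.trans h3.le
        rw [abs_le] at h7 ⊢
        constructor <;> linarith [h7.1, h7.2]
      have h8 : q / 2 * |w.re| ≤ 5 / 2 := by
        have := mul_le_mul (by linarith : q / 2 ≤ 1 / 2) h5 (abs_nonneg _) (by norm_num)
        linarith
      have h9 : 0 ≤ q / 2 * |w.re| := by positivity
      rcases le_or_gt |w.re| (1 / 2) with h4 | h4
      · have h10 := h2 h4
        rw [abs_le]
        constructor <;> linarith
      · rw [h1 h4, sub_self, abs_zero]
        linarith
    calc ∫⁻ w in ball z 1, ‖v w - q / 2 * |w.re|‖ₑ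
        ≤ ∫⁻ w in ball z1 4, ‖v w - q / 2 * |w.re|‖ₑ := lintegral_mono_set hsub
      _ ≤ ∫⁻ w in ball z1 4, ENNReal.ofReal (3 - v w) := by
          refine lintegral_mono_ae ?_
          filter_upwards [hptw] with w hw
          rw [Real.enorm_eq_ofReal_abs]
          exact ENNReal.ofReal_le_ofReal hw
      _ = ENNReal.ofReal (∫ w in ball z1 4, (3 - v w)) := by
          refine (ofReal_integral_eq_lintegral_ofReal hI ?_).symm
          filter_upwards [hptw] with w hw
          exact (abs_nonneg _).trans hw
      _ ≤ ENNReal.ofReal (48 * Real.pi) := by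
          refine ENNReal.ofReal_le_ofReal ?_
          have h3 : Integrable (fun _ : ℂ => (3 : ℝ)) (volume.restrict (ball z1 4)) :=
            integrableOn_const hfin
          have h4 : ∫ w in ball z1 4, (3 - v w) = (∫ w in ball z1 4, (3 : ℝ)) -
              ∫ w in ball z1 4, v w := integral_sub h3 hloc
          rw [h4, setIntegral_const, vol_ball4, smul_eq_mul]
          linarith
  · have h0 : ∀ᵐ w ∂(volume.restrict (ball z 1)), ‖v w - q / 2 * |w.re|‖ₑ = 0 := by
      rw [ae_restrict_iff' measurableSet_ball]
      filter_upwards [hv.out] with w h1 h3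
      have h4 : 1 / 2 < |w.re| := by
        have h6 : |(w - z).re| ≤ ‖w - z‖ := abs_re_le_norm _
        rw [mem_ball, dist_eq_norm] at h3
        rw [sub_re] at h6
        have h7 : |z.re| ≤ |w.re| + |w.re - z.re| := by
          have := abs_sub_abs_le_abs_sub z.re w.re
          rw [abs_sub_comm w.re]
          linarith
        linarith
      rw [h1 h4, sub_self, enorm_zero]
    rw [lintegral_congr_ae h0, lintegral_zero]
    exact bot_le

end Pool.Agent.H90.LIM
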