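import Pool.Agent.H20.LIM.Targets

/-! UNQ: uniqueness of the limit in `L^1` on discs. -/

set_option autoImplicit false

open Complex MeasureTheory Set Filter Topology Metric

namespace Pool.Agent.H90.LIM

open Pool.Agent.H20.LIM

theorem pf_unq : T_UNQ := by
  intro f u v hf hu hv
  have key : ∀ n : ℕ, ∀ᵐ z ∂(volume.restrict (closedBall (0 : ℂ) n)), u z = v z := by
    intro n
    have mu : AEMeasurable u (volume.restrict (closedBall (0 : ℂ) n)) :=
      hu.1.aemeasurable.restrict
    have mv : AEMeasurable v (volume.restrict (closedBall (0 : ℂ) n)) :=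
      hv.1.aemeasurable.restrict
    have h1 : ∀ k, ∫⁻ z in closedBall (0 : ℂ) n, ‖u z - v z‖ₑ ≤
        (∫⁻ z in closedBall (0 : ℂ) n, ‖f k z - u z‖ₑ) +
          ∫⁻ z in closedBall (0 : ℂ) n, ‖f k z - v z‖ₑ := by
      intro k
      have hm : AEMeasurable (fun z => ‖f k z - u z‖ₑ) (volume.restrict (closedBall (0 : ℂ) n)) :=
        ((hf k).aemeasurable.sub mu).enorm
      rw [← lintegral_add_left' hm]
      refine lintegral_mono fun z => ?_
      have e : u z - v z = (f k z - v z) - (f k z - u z) := by ring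
      show ‖u z - v z‖ₑ ≤ ‖f k z - u z‖ₑ + ‖f k z - v z‖ₑ
      rw [e, add_comm]
      exact enorm_sub_le
    have h2 := (hu.2 n).add (hv.2 n)
    rw [add_zero] at h2
    have h3 : ∫⁻ z in closedBall (0 : ℂ) n, ‖u z - v z‖ₑ = 0 :=
      le_antisymm (ge_of_tendsto' h2 h1) bot_le
    have hm : AEMeasurable (fun z => ‖u z - v z‖ₑ) (volume.restrict (closedBall (0 : ℂ) n)) :=
      (mu.sub mv).enorm
    rw [lintegral_eq_zero_iff' hm] at h3
    filter_upwards [h3] with z hz
    have h4 : ‖u z - v z‖ₑ = 0 := hz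
    rw [enorm_eq_zero, sub_eq_zero] at h4
    exact h4
  have h := (ae_restrict_iUnion_iff (μ := volume) (fun n : ℕ => closedBall (0 : ℂ) n)
    (fun z => u z = v z)).2 key
  rw [iUnion_closedBall_nat, Measure.restrict_univ] at h
  exact h

end Pool.Agent.H90.LIM
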