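import Pool.Agent.H20.LIM.Targets

/-! DIL: dilation of profiles. -/

set_option autoImplicit false

open Complex MeasureTheory Set Filter Topology Metric
open scoped Pointwise

namespace Pool.Agent.H90.LIM

open Pool.Agent.H20.LIM

theorem dil_map {l : ℝ} (hl : l ≠ 0) : Measure.map (fun z : ℂ => (l : ℂ) * z) volume =
    ENNReal.ofReal |(l ^ 2)⁻¹| • (volume : Measure ℂ) := by
  have h := Measure.map_addHaar_smul (volume : Measure ℂ) hl
  rw [Complex.finrank_real_complex] at h
  rw [← h]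
  congr 1

theorem dil_qmp {l : ℝ} (hl : l ≠ 0) :
    Measure.QuasiMeasurePreserving (fun z : ℂ => (l : ℂ) * z) volume volume := by
  refine ⟨measurable_const.mul measurable_id, ?_⟩
  rw [dil_map hl]
  exact Measure.smul_absolutelyContinuous

theorem dil_ae {l : ℝ} (hl : l ≠ 0) {p : ℂ → Prop} (h : ∀ᵐ z : ℂ, p z) :
    ∀ᵐ z : ℂ, p ((l : ℂ) * z) := (dil_qmp hl).ae h

theorem dil_loc {l : ℝ} (hl : l ≠ 0) {v : ℂ → ℝ} (hv : LocallyIntegrable v volume) :
    LocallyIntegrable (fun z : ℂ => v ((l : ℂ) * z)) volume := by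
  have hl' : (l : ℂ) ≠ 0 := by exact_mod_cast hl
  rw [locallyIntegrable_iff]
  intro k hk
  set e : ℂ ≃ᵐ ℂ := (Homeomorph.mulLeft₀ (l : ℂ) hl').toMeasurableEquiv with he
  have hec : ⇑e = fun z : ℂ => (l : ℂ) * z := rfl
  have h1 : IntegrableOn v (e '' k) volume :=
    hv.integrableOn_isCompact (hk.image (continuous_const.mul continuous_id))
  have h2 : IntegrableOn v (e '' k) (Measure.map e volume) := by
    rw [hec, dil_map hl]
    unfold IntegrableOn
    rw [Measure.restrict_smul]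
    exact Integrable.smul_measure h1 ENNReal.ofReal_ne_top
  rw [integrableOn_map_equiv, preimage_image_eq _ e.injective] at h2
  exact h2

theorem av_dil {l : ℝ} (hl : 0 < l) (v : ℂ → ℝ) {r : ℝ} (hr : 0 < r) (z : ℂ) :
    av r (fun w => v ((l : ℂ) * w)) z = av (l * r) v ((l : ℂ) * z) := by
  have vb : ∀ (c : ℂ) {s : ℝ}, 0 ≤ s → volume.real (ball c s) = Real.pi * s ^ 2 := by
    intro c s hs
    rw [Measure.real, Complex.volume_ball, ENNReal.toReal_mul, ENNReal.toReal_pow,
      ENNReal.toReal_ofReal hs]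
    simp [mul_comm]
  unfold av
  rw [setAverage_eq, setAverage_eq, vb z hr.le, vb _ (mul_pos hl hr).le]
  have h := Measure.setIntegral_comp_smul_of_pos (volume : Measure ℂ) v (ball z r) hl
  rw [Complex.finrank_real_complex, _root_.smul_ball hl.ne', Real.norm_eq_abs, abs_of_pos hl] at h
  have h2 : ∫ x in ball z r, v ((l : ℂ) * x) = (l ^ 2)⁻¹ • ∫ x in ball (l • z) (l * r), v x := h
  rw [h2]
  have h3 : l • z = (l : ℂ) * z := Complex.real_smul
  rw [h3, smul_smul]
  congr 1
  have hπ := Real.pi_pos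
  field_simp

theorem pf_dil (hTRA : T_TRA) : T_DIL := by
  intro q v hq hv R δ hδ
  obtain ⟨η, hη, -, hT⟩ := hTRA v hv.loc R (δ / 2) (by positivity)
  have hint : IntegrableOn v (closedBall (0 : ℂ) R) :=
    hv.loc.integrableOn_isCompact (isCompact_closedBall _ _)
  obtain ⟨I, hI0, hI⟩ : ∃ I : ℝ, 0 ≤ I ∧ L1 R v ≤ ENNReal.ofReal I := by
    refine ⟨(L1 R v).toReal, ENNReal.toReal_nonneg, ?_⟩
    rw [ENNReal.ofReal_toReal]
    exact hint.2.ne
  obtain ⟨κ, hκ, hκη, hκI⟩ : ∃ κ : ℝ, 0 < κ ∧ κ ≤ η ∧ κ * I ≤ δ / 2 := by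
    refine ⟨min η (δ / 2 / (I + 1)), lt_min hη (by positivity), min_le_left _ _, ?_⟩
    calc min η (δ / 2 / (I + 1)) * I ≤ δ / 2 / (I + 1) * I :=
          mul_le_mul_of_nonneg_right (min_le_right _ _) hI0
      _ ≤ δ / 2 := by
          rw [div_mul_eq_mul_div, div_le_iff₀ (by positivity)]
          nlinarith
  obtain ⟨l, hl⟩ : ∃ l : ℝ, l = 1 + κ := ⟨_, rfl⟩
  have hl1 : 1 < l := by rw [hl]; linarith
  have hl0 : 0 < l := by linarith
  have habs : ∀ z : ℂ, |((l : ℂ) * z).re| = l * |z.re| := by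
    intro z
    rw [re_ofReal_mul, abs_mul, abs_of_pos hl0]
  have hout : ∀ᵐ z : ℂ, 1 / (2 * l) < |z.re| → v ((l : ℂ) * z) / l = q / 2 * |z.re| := by
    filter_upwards [dil_ae hl0.ne' hv.out] with z h1 h2
    rw [habs] at h1
    have h3 : 1 / 2 < l * |z.re| := by
      rw [div_lt_iff₀ (by positivity)] at h2
      linarith
    rw [h1 h3]
    field_simp
  have ha : 1 / (2 * l) < 1 / 2 := by
    rw [div_lt_div_iff₀ (by positivity) (by norm_num)]
    linarith
  refine ⟨1 / (2 * l), fun z => v ((l : ℂ) * z) / l, by positivity, ha, ⟨?_, ?_, ?_, ?_, ?_⟩,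
    hout, ?_⟩
  · have h1 := (dil_loc hl0.ne' hv.loc).smul (l⁻¹)
    have e : (fun z : ℂ => v ((l : ℂ) * z) / l) = l⁻¹ • fun z : ℂ => v ((l : ℂ) * z) := by
      funext z
      show v ((l : ℂ) * z) / l = l⁻¹ * v ((l : ℂ) * z)
      rw [div_eq_inv_mul]
    rw [e]
    exact h1
  · intro r hr
    filter_upwards [dil_ae hl0.ne' (hv.sub (l * r) (mul_pos hl0 hr))] with z h1
    have h2 : av r (fun w => v ((l : ℂ) * w) / l) z = av (l * r) v ((l : ℂ) * z) / l := by
      rw [← av_dil hl0 v hr z]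
      unfold av
      rw [setAverage_eq, setAverage_eq, integral_div, smul_eq_mul, smul_eq_mul, mul_div_assoc]
    rw [h2]
    exact div_le_div_of_nonneg_right h1 hl0.le
  · filter_upwards [hout] with z h1 h2
    exact h1 (ha.trans h2)
  · filter_upwards [dil_ae hl0.ne' hv.symm] with z h1
    have e : -(starRingEnd ℂ) ((l : ℂ) * z) = (l : ℂ) * -(starRingEnd ℂ) z := by
      rw [map_mul, conj_ofReal]
      ring
    rw [e] at h1
    rw [h1]
  · filter_upwards [dil_ae hl0.ne' hv.le, hout] with z h1 h2 h3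
    rcases le_or_gt |z.re| (1 / (2 * l)) with h4 | h4
    · rw [habs] at h1
      have h5 := h1 (by
        rw [le_div_iff₀ (by positivity)] at h4
        linarith)
      rw [div_le_iff₀ hl0]
      nlinarith
    · rw [h2 h4]
      nlinarith
  · have h1 : L1 R (fun z => v ((l : ℂ) * z) / l - v z) ≤
        L1 R (fun z => v ((l : ℂ) * z) - v z) + ENNReal.ofReal κ * L1 R v := by
      unfold L1
      have hm : AEMeasurable (fun z => ENNReal.ofReal κ * ‖v z‖ₑ)
          (volume.restrict (closedBall (0 : ℂ) R)) := (hint.aestronglyMeasurable.enorm).const_mul _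
      rw [← lintegral_const_mul' _ _ ENNReal.ofReal_ne_top, ← lintegral_add_right' _ hm]
      refine lintegral_mono fun z => ?_
      show ‖v ((l : ℂ) * z) / l - v z‖ₑ ≤ ‖v ((l : ℂ) * z) - v z‖ₑ + ENNReal.ofReal κ * ‖v z‖ₑ
      rw [Real.enorm_eq_ofReal_abs, Real.enorm_eq_ofReal_abs, Real.enorm_eq_ofReal_abs,
        ← ENNReal.ofReal_mul hκ.le, ← ENNReal.ofReal_add (abs_nonneg _) (by positivity)]
      refine ENNReal.ofReal_le_ofReal ?_
      have e : v ((l : ℂ) * z) / l - v z = (v ((l : ℂ) * z) - v z) / l - κ / l * v z := by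
        rw [hl]
        have : (1 + κ) ≠ 0 := by positivity
        field_simp
        ring
      have h5 : |(v ((l : ℂ) * z) - v z) / l| ≤ |v ((l : ℂ) * z) - v z| := by
        rw [abs_div, abs_of_pos hl0]
        exact div_le_self (abs_nonneg _) hl1.le
      have h6 : |κ / l * v z| ≤ κ * |v z| := by
        rw [abs_mul, abs_div, abs_of_pos hl0, abs_of_pos hκ]
        exact mul_le_mul_of_nonneg_right (div_le_self hκ.le hl1.le) (abs_nonneg _)
      rw [e]
      exact (abs_sub _ _).trans (add_le_add h5 h6)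
    refine h1.trans ?_
    have h2 : L1 R (fun z => v ((l : ℂ) * z) - v z) ≤ ENNReal.ofReal (δ / 2) := by
      refine hT l ?_
      rw [hl, add_sub_cancel_left, abs_of_pos hκ]
      exact hκη
    have h3 : ENNReal.ofReal κ * L1 R v ≤ ENNReal.ofReal (δ / 2) := by
      refine (mul_le_mul_right hI _).trans ?_
      rw [← ENNReal.ofReal_mul hκ.le]
      exact ENNReal.ofReal_le_ofReal hκI
    refine (add_le_add h2 h3).trans ?_
    rw [← ENNReal.ofReal_add (by positivity) (by positivity)]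
    exact ENNReal.ofReal_le_ofReal (by linarith)

end Pool.Agent.H90.LIM
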